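import Pool.Agent.Y146.GS.Stm
import Pool.Agent.Y146.GR.Main

/-!
# The criterion, in terms of sets of external products
-/

open CategoryTheory AlgebraicGeometry

universe u v

namespace Pool.Agent.Y146.GS

open Pool.Agent.H914 Pool.Agent.H914.VarClass Pool.Agent.H914.VarClass.Obj
  Pool.Agent.H914.WeilCohomology Pool.Agent.H281R3.HT Pool.Agent.W552 Pool.Agent.W550.B
open Pool.Agent.Y146.GR (Datum)

variable {k : Type u} [Field k] {𝒱 : VarClass k} {ops : CycleOps 𝒱}
  {W : WeilCohomology.{u, v} ops} {𝓜 : Set (Datum 𝒱)} {q : ℕ}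

lemma pullOp_pow {X : 𝒱.Obj} (f : X ⟶ X) (r : ℕ) (x : W.H X) :
    (pullOp W f ^ r) x = (W.map f)^[r] x := by
  rw [Module.End.pow_apply]
  rfl

lemma tateIn {X : 𝒱.Obj} {f : X ⟶ X} {m : ℕ} (h : TateIn W X f q m) : GR.TateIn W X f q m := by
  rintro c hc ⟨r, hr, hr'⟩
  exact h c hc ⟨r, hr, by rw [pullOp_pow, hr']⟩

lemma isFrobenius {M : Datum 𝒱} (h : IsFrobenius W q M) : GR.IsFrobenius W q M where
  degree := h.degree
  diagonalizable := h.diagonalizable
  tate m hm := tateIn (h.tate m hm)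

lemma pairTate {M N : Datum 𝒱} (h : PairTate W q M N) : GR.PairTate W q M N :=
  fun d hd e he m hm => tateIn (h d hd e he m hm)

lemma frobeniusOnCycles {Q : 𝒱.Obj} {F : Q ⟶ Q} (h : ScalesCycles W Q F q) :
    Pool.Agent.H914.FrobeniusOnCycles W Q F q := by
  intro j z hz
  obtain ⟨m, hm, hm'⟩ := h j z hz
  refine ⟨m, hm, ?_⟩
  rw [cl_iterate, ← hm', pullOp_pow]

lemma span_base (M : Datum 𝒱) :
    Submodule.span W.K {x | ∃ d ∈ M.D, x ∈ W.gr M.X d} = ⨆ d ∈ M.D, W.gr M.X d := by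
  apply le_antisymm
  · rw [Submodule.span_le]
    rintro x ⟨d, hd, hx⟩
    exact Submodule.mem_iSup_of_mem d (Submodule.mem_iSup_of_mem hd hx)
  · exact iSup₂_le fun d hd x hx => Submodule.subset_span ⟨d, hd, hx⟩

lemma span_ext {X Y : 𝒱.Obj} (S : Set (W.H X)) (S' : Set (W.H Y)) :
    Submodule.span W.K {c | ∃ a ∈ S, ∃ b ∈ S', c = ext W a b} =
      GR.extSpan W (Submodule.span W.K S) (Submodule.span W.K S') := by
  apply le_antisymm
  · rw [Submodule.span_le]
    rintro c ⟨a, ha, b, hb, rfl⟩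
    exact Submodule.subset_span ⟨a, Submodule.subset_span ha, b, Submodule.subset_span hb, rfl⟩
  · rw [GR.extSpan, Submodule.span_le]
    rintro c ⟨a, ha, b, hb, rfl⟩
    rw [SetLike.mem_coe]
    induction ha using Submodule.span_induction with
    | mem a ha =>
      induction hb using Submodule.span_induction with
      | mem b hb => exact Submodule.subset_span ⟨a, ha, b, hb, rfl⟩
      | zero => rw [ext, map_zero, mul_zero]; exact Submodule.zero_mem _
      | add b b' _ _ h1 h2 =>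
        rw [ext, map_add, mul_add]
        exact Submodule.add_mem _ h1 h2
      | smul r b _ h1 =>
        rw [ext, map_smul, mul_smul_comm]
        exact Submodule.smul_mem _ r h1
    | zero => rw [ext, map_zero, zero_mul]; exact Submodule.zero_mem _
    | add a a' _ _ h1 h2 =>
      rw [ext, map_add, add_mul]
      exact Submodule.add_mem _ h1 h2
    | smul r a _ h1 =>
      rw [ext, map_smul, smul_mul_assoc]
      exact Submodule.smul_mem _ r h1

lemma tensor_new {Q : 𝒱.Obj} {F : Q ⟶ Q} {S : Set (W.H Q)} (h : IsExternalProduct W 𝓜 Q F S) :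
    GR.IsTensorProduct W 𝓜 Q F (Submodule.span W.K S) := by
  induction h with
  | base hM => rw [span_base]; exact .base hM
  | prod _ _ h1 h2 => rw [span_ext]; exact .prod h1 h2

lemma tensor_old {Q : 𝒱.Obj} {F : Q ⟶ Q} {V : Submodule W.K (W.H Q)}
    (h : GR.IsTensorProduct W 𝓜 Q F V) :
    ∃ S, IsExternalProduct W 𝓜 Q F S ∧ Submodule.span W.K S = V := by
  induction h with
  | base hM => exact ⟨_, .base hM, span_base _⟩
  | prod _ _ h1 h2 =>
    obtain ⟨S, hS, rfl⟩ := h1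
    obtain ⟨S', hS', rfl⟩ := h2
    exact ⟨_, .prod hS hS', span_ext S S'⟩

lemma image_eq {Q Y : 𝒱.Obj} (γ : (Q.prod Y).Cycles) (x : W.H Q) :
    image W γ x = cycMap W γ x := rfl

lemma generatedBy {Y : 𝒱.Obj} (h : GeneratedBy W 𝓜 Y) : GR.GeneratedBy W 𝓜 Y := by
  rw [GR.GeneratedBy, eq_top_iff]
  have h1 : Submodule.span W.K _ = ⊤ := h
  rw [← h1]
  apply Submodule.span_mono
  rintro c ⟨Q, F, S, p, γ, hT, hγ, x, hx, rfl⟩
  exact ⟨Q, F, _, p, γ, tensor_new hT, hγ, x, Submodule.subset_span hx, image_eq γ x⟩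

/-- **The criterion.** -/
theorem homEqNum {q : ℕ} (hq : q ≠ 0) (C : Set (Conjugation W))
    (h1 : ∀ M ∈ 𝓜, IsFrobenius W q M) (h2 : ∀ M ∈ 𝓜, ∀ N ∈ 𝓜, PairTate W q M N)
    (h3 : ∀ Q F S, IsExternalProduct W 𝓜 Q F S → ScalesCycles W Q F q)
    (h4 : StableRelationsSplit W q 𝓜 C) {Y : 𝒱.Obj} (hY : GeneratedBy W 𝓜 Y) :
    HomEqNum W Y := by
  refine GR.eq_zero_of_num hq C (fun M hM => isFrobenius (h1 M hM))
    (fun M hM N hN => pairTate (h2 M hM N hN)) ?_ ?_ (generatedBy hY)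
  · intro Q F V hT
    obtain ⟨S, hS, rfl⟩ := tensor_old hT
    exact frobeniusOnCycles (h3 Q F S hS)
  · intro s hs hrel hst
    exact h4 s hs hrel hst

end Pool.Agent.Y146.GS
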