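import Pool.Agent.Y146.GR.Stm

/-!
# Relations between Frobenius eigenvalues which are stable under conjugations: definitions
-/

open CategoryTheory AlgebraicGeometry

universe u v

namespace Pool.Agent.Y146.GS

section Alg

variable {K A : Type*} [Field K] [AddCommGroup A] [Module K A]

/-- The space is the sum of the eigenspaces of `F`. -/
def Diagonal (F : Module.End K A) : Prop := ⨆ α, F.eigenspace α = ⊤

/-- The number `α` is an eigenvalue of `F` on the subspace `V`. -/
def EigenvalueOn (V : Submodule K A) (F : Module.End K A) (α : K) : Prop :=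
  ∃ x ∈ V, x ≠ 0 ∧ F x = α • x

/-- The functional `t` is multiplied by `q ^ n` by `F`. -/
def ScaledBy (t : A →ₗ[K] K) (F : Module.End K A) (q n : ℕ) : Prop :=
  ∀ a, t (F a) = (q : K) ^ n * t a

/-- Some power `F ^ r`, with `r ≥ 1`, multiplies `x` by `q ^ (r m)`. -/
def PowerScales (F : Module.End K A) (q m : ℕ) (x : A) : Prop :=
  ∃ r ≥ 1, (F ^ r) x = (q : K) ^ (r * m) • x

/-- The elements of `V` which some power `F ^ r`, with `r ≥ 1`, multiplies by `q ^ (r m)` belong
to `T`. -/
def TateClassesIn (V : Submodule K A) (F : Module.End K A) (q m : ℕ) (T : Submodule K A) : Prop :=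
  ∀ x ∈ V, PowerScales F q m x → x ∈ T

/-- The set `S` spans the space. -/
def Spans (K : Type*) {A : Type*} [Field K] [AddCommGroup A] [Module K A] (S : Set A) : Prop :=
  Submodule.span K S = ⊤

end Alg

open Pool.Agent.H914 Pool.Agent.H914.VarClass Pool.Agent.H914.VarClass.Obj
  Pool.Agent.H914.WeilCohomology Pool.Agent.H281R3.HT Pool.Agent.W552 Pool.Agent.W550.B
open Pool.Agent.Y146.GR (Datum)

variable {k : Type u} [Field k] {𝒱 : VarClass k} {ops : CycleOps 𝒱}

/-- The variety `Q` is a product of varieties in `𝓜` (with any repetitions), `F` is the product of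
their endomorphisms, and `S` is the set of external products of homogeneous classes on the factors
whose degrees belong to the given sets of degrees. -/
inductive IsExternalProduct (W : WeilCohomology.{u, v} ops) (𝓜 : Set (Datum 𝒱)) :
    (Q : 𝒱.Obj) → (Q ⟶ Q) → Set (W.H Q) → Prop
  | base {M : Datum 𝒱} : M ∈ 𝓜 → IsExternalProduct W 𝓜 M.X M.f {x | ∃ d ∈ M.D, x ∈ W.gr M.X d}
  | prod {Q R : 𝒱.Obj} {F : Q ⟶ Q} {G : R ⟶ R} {S : Set (W.H Q)}
      {S' : Set (W.H R)} : IsExternalProduct W 𝓜 Q F S → IsExternalProduct W 𝓜 R G S' →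
      IsExternalProduct W 𝓜 (Q.prod R) (pairMap F G) {c | ∃ a ∈ S, ∃ b ∈ S', c = ext W a b}

/-- The image of the class `x` on `Q` under the correspondence given by the cycle `γ` on
`Q × Y`. -/
noncomputable def image (W : WeilCohomology.{u, v} ops) {Q Y : 𝒱.Obj} (γ : (Q.prod Y).Cycles)
    (x : W.H Q) : W.H Y :=
  W.push (snd Q Y) (W.cl (Q.prod Y) γ * W.map (fst Q Y) x)

/-- The cohomology of `Y` is spanned by the images, under algebraic correspondences from products
of varieties in `𝓜` to `Y`, of external products of homogeneous classes whose degrees belong to the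
given sets of degrees. -/
def GeneratedBy (W : WeilCohomology.{u, v} ops) (𝓜 : Set (Datum 𝒱)) (Y : 𝒱.Obj) : Prop :=
  Spans W.K {c : W.H Y | ∃ (Q : 𝒱.Obj) (F : Q ⟶ Q) (S : Set (W.H Q))
    (p : ℕ) (γ : (Q.prod Y).Cycles), IsExternalProduct W 𝓜 Q F S ∧ (Q.prod Y).IsCyc p γ ∧
      ∃ x ∈ S, c = image W γ x}

/-- The Tate conjecture in codimension `m` for `X` and its Frobenius endomorphism `f` relative to
the field with `q` elements: every class of degree `2 m` on which, for some `r ≥ 1`, the `r`-th
power of `f^*` is the multiplication by `q ^ (r m)` is a linear combination of classes of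
algebraic cycles. -/
def TateIn (W : WeilCohomology.{u, v} ops) (X : 𝒱.Obj) (f : X ⟶ X) (q m : ℕ) : Prop :=
  TateClassesIn (W.gr X (2 * m)) (pullOp W f) q m (algSpan W X)

/-- The endomorphism `f` acts on the top cohomology as `q ^ dim X`, it is diagonalizable, and the
Tate conjecture holds for `X` in the codimensions `m` with `2 m` in the set of degrees. -/
structure IsFrobenius (W : WeilCohomology.{u, v} ops) (q : ℕ) (M : Datum 𝒱) : Prop where
  degree : ScaledBy (W.tr M.X) (pullOp W M.f) q M.X.dim
  diagonalizable : Diagonal (pullOp W M.f)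
  tate : ∀ m, 2 * m ∈ M.D → TateIn W M.X M.f q m

/-- The Tate conjecture for the product of the two varieties, in the codimensions `m` such that
`2 m` is the sum of two elements of the sets of degrees. -/
def PairTate (W : WeilCohomology.{u, v} ops) (q : ℕ) (M N : Datum 𝒱) : Prop :=
  ∀ d ∈ M.D, ∀ e ∈ N.D, ∀ m, d + e = 2 * m → TateIn W (M.X.prod N.X) (pairMap M.f N.f) q m

/-- Some power of `F^*`, with positive exponent `r`, multiplies the class of the cycle `z` of
codimension `m` by `q ^ (r m)`. -/
def ScalesCycles (W : WeilCohomology.{u, v} ops) (Q : 𝒱.Obj) (F : Q ⟶ Q) (q : ℕ) : Prop :=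
  ∀ m z, Q.IsCyc m z → PowerScales (pullOp W F) q m (W.cl Q z)

/-- Every relation between eigenvalues of the endomorphisms of the members of `𝓜`, on the
cohomology in the given degrees, which is stable under all conjugations in the set `C` is a sum of
relations between one or two eigenvalues. -/
def StableRelationsSplit (W : WeilCohomology.{u, v} ops) (q : ℕ) (𝓜 : Set (Datum 𝒱))
    (C : Set (Conjugation W)) : Prop :=
  ∀ s : Multiset (ℕ × W.K),
    (∀ x ∈ s, ∃ M ∈ 𝓜, x.1 ∈ M.D ∧ EigenvalueOn (W.gr M.X x.1) (pullOp W M.f) x.2) →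
    IsTateRel q s → (∀ σ ∈ C, s.map (Prod.map id σ.τ) = s) → PairGenerated q s

end Pool.Agent.Y146.GS
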